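import Pool.Agent.H143Z.Acc.Defs

/-! Hilbert basis theorem, Cayley-Hamilton and gradedness for families of operators. -/

set_option autoImplicit false

namespace Pool.Agent.H615Z.Acc

open Pool.Agent.H143Z.Vir Pool.Agent.H143Z.Acc

section gen

variable {M ι : Type} [AddCommGroup M] [Module ℂ M]

theorem adj_mem {op : ι → En M} {S : Set ι} {p : Submodule ℂ M} (hp : Stb op S p)
    {c : En M} (hc : c ∈ Algebra.adjoin ℂ (op '' S)) : ∀ m ∈ p, c m ∈ p := by
  induction hc using Algebra.adjoin_induction with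
  | mem x hx =>
    obtain ⟨i, hi, rfl⟩ := hx
    exact hp i hi
  | algebraMap r =>
    intro m hm
    rw [Module.algebraMap_end_apply]
    exact p.smul_mem r hm
  | add x y _ _ hx hy =>
    intro m hm
    exact p.add_mem (hx m hm) (hy m hm)
  | mul x y _ _ hx hy =>
    intro m hm
    exact hx _ (hy m hm)

theorem adj_comm {op : ι → En M} {S : Set ι}
    (h : ∀ i ∈ S, ∀ j ∈ S, op i * op j = op j * op i) :
    IsMulCommutative (Algebra.adjoin ℂ (op '' S)) := by
  apply Algebra.isMulCommutative_adjoin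
  rintro _ ⟨i, hi, rfl⟩ _ ⟨j, hj, rfl⟩
  exact h i hi j hj

/-- a stable subspace as a module over the operator algebra -/
def toSub {op : ι → En M} {S : Set ι} (p : Submodule ℂ M) (hp : Stb op S p) :
    Submodule (Algebra.adjoin ℂ (op '' S)) M where
  carrier := p
  add_mem' := p.add_mem
  zero_mem' := p.zero_mem
  smul_mem' c m hm := adj_mem hp c.2 m hm

/-- a module over the operator algebra as a subspace -/
def ofSub {op : ι → En M} {S : Set ι} (q : Submodule (Algebra.adjoin ℂ (op '' S)) M) :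
    Submodule ℂ M where
  carrier := q
  add_mem' := q.add_mem
  zero_mem' := q.zero_mem
  smul_mem' c m hm := by
    have h := q.smul_mem (algebraMap ℂ (Algebra.adjoin ℂ (op '' S)) c) hm
    have e : (algebraMap ℂ (Algebra.adjoin ℂ (op '' S)) c) • m = c • m :=
      Module.algebraMap_end_apply ℂ ℂ M c m
    rw [e] at h
    exact h

theorem stb_ofSub {op : ι → En M} {S : Set ι} (q : Submodule (Algebra.adjoin ℂ (op '' S)) M) :
    Stb op S (ofSub q) := fun i hi _ hm =>
  q.smul_mem ⟨op i, Algebra.subset_adjoin ⟨i, hi, rfl⟩⟩ hm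

theorem le_span {op : ι → En M} {S : Set ι} {L : Submodule ℂ M} (h : Fg op S L) :
    ∃ s : Finset M, ∀ m ∈ L, m ∈ Submodule.span (Algebra.adjoin ℂ (op '' S)) (s : Set M) := by
  obtain ⟨s, -, hs⟩ := h
  refine ⟨s, fun m hm => ?_⟩
  have h1 := hs (ofSub (Submodule.span (Algebra.adjoin ℂ (op '' S)) (s : Set M))) (stb_ofSub _)
    (fun x hx => (Submodule.subset_span hx :
      x ∈ Submodule.span (Algebra.adjoin ℂ (op '' S)) (s : Set M))) hm
  exact h1

end gen

theorem t5a : T5a := by
  intro M ι _ _ op S L hS hc hF f hf hst hle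
  letI : CommRing (Algebra.adjoin ℂ (op '' S)) :=
    { (inferInstance : Ring (Algebra.adjoin ℂ (op '' S))) with
      mul_comm := fun a b => (adj_comm hc).is_comm.comm a b }
  have : Algebra.FiniteType ℂ (Algebra.adjoin ℂ (op '' S)) :=
    (Subalgebra.fg_iff_finiteType _).mp ⟨(hS.image op).toFinset, by simp⟩
  have : IsNoetherianRing (Algebra.adjoin ℂ (op '' S)) :=
    Algebra.FiniteType.isNoetherianRing ℂ _
  obtain ⟨s, hs⟩ := le_span hF
  set N := Submodule.span (Algebra.adjoin ℂ (op '' S)) (s : Set M) with hN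
  have : IsNoetherian (Algebra.adjoin ℂ (op '' S)) N :=
    isNoetherian_of_fg_of_noetherian _ ⟨s, rfl⟩
  let g : ℕ →o Submodule (Algebra.adjoin ℂ (op '' S)) N :=
    ⟨fun n => (toSub (f n) (hst n)).comap N.subtype, fun a b hab x hx => hf hab hx⟩
  obtain ⟨n, hn⟩ := monotone_stabilizes_iff_noetherian.mpr inferInstance g
  refine ⟨n, fun m hm => le_antisymm (fun x hx => ?_) (hf hm)⟩
  have h1 : (⟨x, hs x (hle m hx)⟩ : N) ∈ g m := hx
  rw [← hn m hm] at h1
  exact h1

theorem t5b : T5b := by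
  intro M ι _ _ op S H hc hH hF
  letI : CommRing (Algebra.adjoin ℂ (op '' S)) :=
    { (inferInstance : Ring (Algebra.adjoin ℂ (op '' S))) with
      mul_comm := fun a b => (adj_comm hc).is_comm.comm a b }
  obtain ⟨s, hs⟩ := le_span hF
  have : Module.Finite (Algebra.adjoin ℂ (op '' S)) M :=
    ⟨⟨s, eq_top_iff.mpr fun m _ => hs m trivial⟩⟩
  have hcomm : ∀ c ∈ Algebra.adjoin ℂ (op '' S), c * H = H * c := by
    intro c hc'
    induction hc' using Algebra.adjoin_induction with
    | mem x hx =>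
      obtain ⟨i, hi, rfl⟩ := hx
      exact hH i hi
    | algebraMap r => exact Algebra.commutes r H
    | add x y _ _ hx hy => rw [add_mul, mul_add, hx, hy]
    | mul x y _ _ hx hy => rw [mul_assoc, hy, ← mul_assoc, hx, mul_assoc]
  let H' : Module.End (Algebra.adjoin ℂ (op '' S)) M :=
    { toFun := H
      map_add' := H.map_add
      map_smul' := fun c m => (LinearMap.congr_fun (hcomm c c.2) m).symm }
  have hpow : ∀ (j : ℕ) (m : M), (H' ^ j) m = (H ^ j) m := by
    intro j
    induction j with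
    | zero => intro m; rfl
    | succ j ih =>
      intro m
      rw [pow_succ, pow_succ, Module.End.mul_apply, Module.End.mul_apply, ih]
      rfl
  obtain ⟨P, hP, h0⟩ := LinearMap.exists_monic_and_aeval_eq_zero _ H'
  refine ⟨P.natDegree, fun j => (P.coeff j).1, fun j => (P.coeff j).2, ?_⟩
  ext m
  have h1 := LinearMap.congr_fun h0 m
  rw [Polynomial.aeval_eq_sum_range, Finset.sum_range_succ, hP.coeff_natDegree, one_smul,
    LinearMap.add_apply, LinearMap.sum_apply, hpow] at h1
  rw [LinearMap.add_apply, LinearMap.sum_apply, add_comm]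
  refine Eq.trans ?_ h1
  congr 1
  refine Finset.sum_congr rfl fun j _ => ?_
  rw [LinearMap.smul_apply, hpow]
  rfl

theorem graded (O : Ob) (p : Submodule ℂ O.M) (h1 : ∀ m ∈ p, O.dg m ∈ p)
    (h2 : ∀ m ∈ p, O.ρ 0 m ∈ p) (s : Finset (ℤ × ℤ)) :
    ∀ f : ℤ × ℤ → O.M, (∀ q, f q ∈ O.Eg q) → ∑ q ∈ s, f q ∈ p → ∀ q ∈ s, f q ∈ p := by
  induction s using Finset.induction_on with
  | empty => intro f _ _ q hq; simp at hq
  | insert a s ha ih =>
    intro f hf hsum
    have hd : ∀ q, O.dg (f q) = (q.1 : ℂ) • f q := fun q =>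
      Module.End.mem_eigenspace_iff.mp (hf q).1
    have hr : ∀ q, O.ρ 0 (f q) = (q.2 : ℂ) • f q := fun q =>
      Module.End.mem_eigenspace_iff.mp (hf q).2
    have k1 : ∑ q ∈ s, ((q.1 : ℂ) - a.1) • f q ∈ p := by
      have h := p.sub_mem (h1 _ hsum) (p.smul_mem (a.1 : ℂ) hsum)
      rw [map_sum, Finset.smul_sum, ← Finset.sum_sub_distrib, Finset.sum_insert ha, hd,
        sub_self, zero_add] at h
      simpa only [hd, sub_smul] using h
    have k2 : ∑ q ∈ s, ((q.2 : ℂ) - a.2) • f q ∈ p := by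
      have h := p.sub_mem (h2 _ hsum) (p.smul_mem (a.2 : ℂ) hsum)
      rw [map_sum, Finset.smul_sum, ← Finset.sum_sub_distrib, Finset.sum_insert ha, hr,
        sub_self, zero_add] at h
      simpa only [hr, sub_smul] using h
    have j1 := ih _ (fun q => (O.Eg q).smul_mem _ (hf q)) k1
    have j2 := ih _ (fun q => (O.Eg q).smul_mem _ (hf q)) k2
    have hs : ∀ q ∈ s, f q ∈ p := by
      intro q hq
      have hne : q ≠ a := fun e => ha (e ▸ hq)
      by_cases e1 : q.1 = a.1
      · have e2 : q.2 ≠ a.2 := fun e => hne (Prod.ext e1 e)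
        have e3 : ((q.2 : ℂ) - a.2) ≠ 0 := sub_ne_zero.mpr (by exact_mod_cast e2)
        exact (p.smul_mem_iff e3).mp (j2 q hq)
      · have e3 : ((q.1 : ℂ) - a.1) ≠ 0 := sub_ne_zero.mpr (by exact_mod_cast e1)
        exact (p.smul_mem_iff e3).mp (j1 q hq)
    intro q hq
    rcases Finset.mem_insert.mp hq with rfl | hq
    · rw [Finset.sum_insert ha] at hsum
      have := p.sub_mem hsum (p.sum_mem hs)
      simpa using this
    · exact hs q hq

theorem t5c : T5c := by
  intro O p h1 h2 m hm hsup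
  obtain ⟨f, hf, e⟩ := (Submodule.mem_iSup_iff_exists_finsupp _ _).mp hsup
  have e' : ∑ q ∈ f.support, f q = m := e
  have h := graded O p h1 h2 f.support f hf (by rw [e']; exact hm)
  rw [← e']
  exact Submodule.sum_mem _ fun q hq => Submodule.mem_iSup_of_mem q ⟨hf q, h q hq⟩

end Pool.Agent.H615Z.Acc
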